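import Pool.Agent.StrLink.Main

set_option autoImplicit false

namespace Pool.Agent.Results.MP_8b9055_gt.MilnorPlusFreeProper

open Pool.Agent.StrLink

/-- For every number `k ≥ 2` of strands, the finite type invariants of order at most `2` which are
polynomials in Milnor invariants (`M k 2`) and those which vanish on all string links with free
complement group (`N k 2`) do not span the space `V k 2` of all finite type invariants of order at
most `2`. -/
theorem result (k : ℕ) (hk : 2 ≤ k) : M k 2 ⊔ N k 2 < V k 2 := by
  refine lt_of_le_of_ne (sup_le inf_le_left fun f hf => hf.1) (main k hk)

end Pool.Agent.Results.MP_8b9055_gt.MilnorPlusFreeProper
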