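import Pool.Agent.MQ1.All

set_option autoImplicit false

namespace Pool.Agent.Results.MP_8b9055_gt.TwoStrandYes

open Pool.Agent.StrLink

/-- For two strands the space `N_n` is not zero for any `n ≥ 8`: there is a finite type invariant of
order at most `8`, not identically zero, which vanishes on all 2-strand string links with free
complement group. -/
theorem result : ∃ f : SL 2 → ℚ, f ≠ 0 ∧ ∀ n, 8 ≤ n → f ∈ N 2 n :=
  Pool.Agent.MQ1.main_all

end Pool.Agent.Results.MP_8b9055_gt.TwoStrandYes
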